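import Mathlib

/-!
Gauge theories with gauge group the compact symplectic group USp(6), and their Rains function.
-/

open Matrix

namespace Pool.Agent.H496Z.Rains

/-- The function `ϑ(x) = {x} (1 - {x})`, where `{x}` is the fractional part. -/
noncomputable def theta (x : ℝ) : ℝ := Int.fract x * (1 - Int.fract x)

/-- The compact symplectic group USp(6): unitary symplectic complex 6 by 6 matrices. It is a
compact connected simple Lie group of rank 3 (type C3). -/
def USp6 : Submonoid (Matrix (Fin 3 ⊕ Fin 3) (Fin 3 ⊕ Fin 3) ℂ) :=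
  Matrix.unitaryGroup (Fin 3 ⊕ Fin 3) ℂ ⊓ Matrix.symplecticGroup (Fin 3) ℂ

/-- `e t = exp (2 π i t)`. -/
noncomputable def e (t : ℝ) : ℂ := Complex.exp (2 * Real.pi * Complex.I * t)

lemma e_mul_neg (t : ℝ) : e t * e (-t) = 1 := by
  unfold e
  rw [← Complex.exp_add]
  push_cast
  simp

lemma star_e (t : ℝ) : star (e t) = e (-t) := by
  unfold e
  rw [Complex.star_def, ← Complex.exp_conj]
  congr 1
  simp [Complex.conj_ofReal, map_ofNat]

/-- The point of the standard maximal torus of USp(6) with Cartan coordinates `x`:
the diagonal matrix with entries `e (x 0), e (x 1), e (x 2), e (-x 0), e (-x 1), e (-x 2)`. -/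
noncomputable def torus (x : Fin 3 → ℝ) : USp6 :=
  ⟨Matrix.diagonal (Sum.elim (fun i => e (x i)) (fun i => e (-x i))), by
    constructor
    · show _ ∈ Matrix.unitaryGroup _ _
      rw [Matrix.mem_unitaryGroup_iff, Matrix.star_eq_conjTranspose,
        Matrix.diagonal_conjTranspose, Matrix.diagonal_mul_diagonal, ← Matrix.diagonal_one]
      congr 1
      funext i
      rcases i with i | i
      · simp [star_e, e_mul_neg, -RCLike.star_def]
      · simp [star_e, mul_comm, e_mul_neg, -RCLike.star_def]
    · show _ ∈ Matrix.symplecticGroup _ _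
      rw [SymplecticGroup.mem_iff, Matrix.diagonal_transpose]
      ext i j
      rw [Matrix.mul_diagonal, Matrix.diagonal_mul]
      rcases i with i | i <;> rcases j with j | j <;> by_cases h : i = j <;>
        simp [Matrix.J, h, e_mul_neg, mul_comm]⟩

/-- The nine positive roots `2 e_i`, `e_i + e_j`, `e_i - e_j` (`i < j`) of USp(6) in the Cartan
coordinates of `torus`. -/
def posRoots : Multiset (Fin 3 → ℝ) :=
  {![2, 0, 0], ![0, 2, 0], ![0, 0, 2], ![1, 1, 0], ![1, -1, 0], ![1, 0, 1], ![1, 0, -1],
    ![0, 1, 1], ![0, 1, -1]}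

/-- All eighteen roots of USp(6): the positive roots and their negatives. -/
def roots : Multiset (Fin 3 → ℝ) := posRoots + posRoots.map (fun α => -α)

/-- A chiral multiplet: a continuous finite-dimensional complex representation of USp(6), written
in a basis of weight vectors for the maximal torus, with the weight `wt i` of the `i`-th basis
vector, together with an R-charge in the open interval from 0 to 2. -/
structure Multiplet where
  /-- dimension of the representation -/
  dim : ℕ
  /-- the representation -/
  rep : USp6 →* Matrix (Fin dim) (Fin dim) ℂ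
  cont : Continuous rep
  /-- the weights -/
  wt : Fin dim → Fin 3 → ℝ
  rep_torus : ∀ x, rep (torus x) = Matrix.diagonal fun i => e (wt i ⬝ᵥ x)
  /-- the R-charge -/
  r : ℝ
  r_pos : 0 < r
  r_lt : r < 2

/-- The multiset of weights (with multiplicity) of a multiplet. -/
def Multiplet.weights (M : Multiplet) : Multiset (Fin 3 → ℝ) := Finset.univ.val.map M.wt

/-- The quadratic anomaly condition. -/
def QuadAnomaly {n : ℕ} (D : Fin n → Multiplet) : Prop :=
  ∀ l m : Fin 3, ∑ j, ((D j).r - 1) * ((D j).weights.map fun ρ => ρ l * ρ m).sum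
    + (roots.map fun α => α l * α m).sum = 0

/-- The cubic anomaly condition. -/
def CubicAnomaly {n : ℕ} (D : Fin n → Multiplet) : Prop :=
  ∀ l m k : Fin 3, ∑ j, ((D j).weights.map fun ρ => ρ l * ρ m * ρ k).sum = 0

/-- Non-chiral matter: the multiset of all weights is invariant under `ρ ↦ -ρ`, that is, the
nonzero weights come in pairs `±ρ`. -/
def NonChiral {n : ℕ} (D : Fin n → Multiplet) : Prop :=
  (∑ j, (D j).weights).map (fun ρ => -ρ) = ∑ j, (D j).weights

/-- Asymptotic freedom: the total Dynkin index of the matter is less than three times the index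
of the adjoint representation. -/
def AsymptoticallyFree {n : ℕ} (D : Fin n → Multiplet) : Prop :=
  ∀ l : Fin 3, ∑ j, ((D j).weights.map fun ρ => ρ l ^ 2).sum
    < 3 * (roots.map fun α => α l ^ 2).sum

/-- The Rains function `L_h`. -/
noncomputable def rains {n : ℕ} (D : Fin n → Multiplet) (x : Fin 3 → ℝ) : ℝ :=
  (1 / 2) * ∑ j, (1 - (D j).r) * ((D j).weights.map fun ρ => theta (ρ ⬝ᵥ x)).sum
    - (posRoots.map fun α => theta (α ⬝ᵥ x)).sum

end Pool.Agent.H496Z.Rains
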