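import Pool.Agent.H496Z.RainsRep

/-!
The counterexample: three copies of the second exterior power with R-charge 1/5, the third
exterior power with R-charge 3/2 and two copies of the defining representation with R-charge 3/10.
-/

open Matrix

namespace Pool.Agent.H496Z.Rains

/-- the matter content -/
noncomputable def D : Fin 6 → Multiplet :=
  ![extM 2 (1 / 5) (by norm_num) (by norm_num), extM 2 (1 / 5) (by norm_num) (by norm_num),
    extM 2 (1 / 5) (by norm_num) (by norm_num), extM 3 (3 / 2) (by norm_num) (by norm_num),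
    extM 1 (3 / 10) (by norm_num) (by norm_num), extM 1 (3 / 10) (by norm_num) (by norm_num)]

lemma extM_r (k : ℕ) (r : ℝ) (h0 : 0 < r) (h2 : r < 2) : (extM k r h0 h2).r = r := rfl

lemma castv3 (a b c : ℤ) : castv ![a, b, c] = ![(a : ℝ), (b : ℝ), (c : ℝ)] := by
  funext l
  fin_cases l <;> simp [castv]

lemma sumD (F : Multiplet → ℝ) : ∑ j, F (D j) =
    3 * F (extM 2 (1 / 5) (by norm_num) (by norm_num)) + F (extM 3 (3 / 2) (by norm_num) (by norm_num))
      + 2 * F (extM 1 (3 / 10) (by norm_num) (by norm_num)) := by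
  simp only [D, Fin.sum_univ_succ, Fin.sum_univ_zero, Matrix.cons_val_zero, Matrix.cons_val_succ]
  ring

lemma quad : QuadAnomaly D := by
  intro l m
  rw [sumD (fun M => (M.r - 1) * (M.weights.map fun ρ => ρ l * ρ m).sum)]
  simp only [extM_r, extM_weights, w1, w2, w3, roots, posRoots, Multiset.insert_eq_cons,
    Multiset.map_cons, Multiset.map_singleton, Multiset.sum_cons, Multiset.sum_singleton,
    Multiset.map_add, Multiset.sum_add, castv3]
  fin_cases l <;> fin_cases m <;> simp <;> norm_num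

lemma cubic : CubicAnomaly D := by
  intro l m k
  rw [sumD (fun M => (M.weights.map fun ρ => ρ l * ρ m * ρ k).sum)]
  simp only [extM_weights, w1, w2, w3, Multiset.insert_eq_cons,
    Multiset.map_cons, Multiset.map_singleton, Multiset.sum_cons, Multiset.sum_singleton, castv3]
  fin_cases l <;> fin_cases m <;> fin_cases k <;> simp

lemma af : AsymptoticallyFree D := by
  intro l
  rw [sumD (fun M => (M.weights.map fun ρ => ρ l ^ 2).sum)]
  simp only [extM_weights, w1, w2, w3, roots, posRoots, Multiset.insert_eq_cons,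
    Multiset.map_cons, Multiset.map_singleton, Multiset.sum_cons, Multiset.sum_singleton,
    Multiset.map_add, Multiset.sum_add, castv3]
  fin_cases l <;> simp <;> norm_num

lemma castv_neg (v : Fin 3 → ℤ) : -castv v = castv (-v) := by
  funext l
  simp [castv]

lemma neg_weights (k : ℕ) (r : ℝ) (h0 : 0 < r) (h2 : r < 2)
    (h : ((Finset.powersetCard k (Finset.univ : Finset (Fin 6))).val.map
          fun s => ∑ i ∈ s, wZ i).map (fun v => -v) =
        ((Finset.powersetCard k (Finset.univ : Finset (Fin 6))).val.map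
          fun s => ∑ i ∈ s, wZ i)) :
    (extM k r h0 h2).weights.map (fun ρ => -ρ) = (extM k r h0 h2).weights := by
  rw [extM_weights]
  conv_rhs => rw [← h]
  simp only [Multiset.map_map, Function.comp_def, castv_neg]

lemma nonchiral : NonChiral D := by
  unfold NonChiral
  have h1 := neg_weights 1 (3 / 10) (by norm_num) (by norm_num) (by rw [w1]; decide)
  have h2 := neg_weights 2 (1 / 5) (by norm_num) (by norm_num) (by rw [w2]; decide)
  have h3 := neg_weights 3 (3 / 2) (by norm_num) (by norm_num) (by rw [w3]; decide)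
  simp only [D, Fin.sum_univ_succ, Fin.sum_univ_zero, Matrix.cons_val_zero, Matrix.cons_val_succ,
    Multiset.map_add, h1, h2, h3, add_zero]

lemma theta_neg (t : ℝ) : theta (-t) = theta t := by
  unfold theta
  by_cases h : Int.fract t = 0
  · rw [Int.fract_neg_eq_zero.mpr h, h]
  · rw [Int.fract_neg h]; ring

lemma theta_zero : theta 0 = 0 := by simp [theta]

lemma theta_small (t : ℝ) (h : |t| < 1) : theta t = |t| - t ^ 2 := by
  rcases le_total 0 t with h0 | h0
  · rw [abs_of_nonneg h0] at h ⊢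
    unfold theta
    rw [Int.fract_eq_self.mpr ⟨h0, h⟩]; ring
  · rw [abs_of_nonpos h0] at h ⊢
    rw [← theta_neg]
    unfold theta
    rw [Int.fract_eq_self.mpr ⟨by linarith, h⟩]; ring

lemma rains_eq (x : Fin 3 → ℝ) : rains D x =
    7 / 5 * (theta (x 0 + x 1) + theta (x 0 - x 1) + theta (x 0 + x 2) + theta (x 0 - x 2)
      + theta (x 1 + x 2) + theta (x 1 - x 2))
    - 1 / 2 * (theta (x 0 + x 1 + x 2) + theta (x 0 + x 1 - x 2) + theta (x 0 - x 1 + x 2)
      + theta (x 0 - x 1 - x 2))
    + 2 / 5 * (theta (x 0) + theta (x 1) + theta (x 2))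
    - (theta (2 * x 0) + theta (2 * x 1) + theta (2 * x 2)) := by
  unfold rains
  rw [sumD (fun M => (1 - M.r) * (M.weights.map fun ρ => theta (ρ ⬝ᵥ x)).sum)]
  simp only [extM_r, extM_weights, w1, w2, w3, posRoots, Multiset.insert_eq_cons,
    Multiset.map_cons, Multiset.map_singleton, Multiset.sum_cons, Multiset.sum_singleton,
    castv3, dotProduct, Fin.sum_univ_three, Matrix.cons_val_zero, Matrix.cons_val_one,
    Matrix.cons_val_two, Matrix.head_cons, Matrix.tail_cons, Int.cast_one, Int.cast_zero,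
    Int.cast_neg, one_mul, zero_mul, add_zero, zero_add, neg_mul, theta_zero, theta_neg]
  have a1 : theta (-x 0 + -x 1) = theta (x 0 + x 1) := by rw [← theta_neg]; congr 1; ring
  have a2 : theta (-x 0 + x 1) = theta (x 0 - x 1) := by rw [← theta_neg]; congr 1; ring
  have a3 : theta (-x 0 + -x 2) = theta (x 0 + x 2) := by rw [← theta_neg]; congr 1; ring
  have a4 : theta (-x 0 + x 2) = theta (x 0 - x 2) := by rw [← theta_neg]; congr 1; ring
  have a5 : theta (-x 1 + -x 2) = theta (x 1 + x 2) := by rw [← theta_neg]; congr 1; ring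
  have a6 : theta (-x 1 + x 2) = theta (x 1 - x 2) := by rw [← theta_neg]; congr 1; ring
  have b1 : theta (-x 0 + -x 1 + -x 2) = theta (x 0 + x 1 + x 2) := by
    rw [← theta_neg]; congr 1; ring
  have b2 : theta (-x 0 + -x 1 + x 2) = theta (x 0 + x 1 - x 2) := by
    rw [← theta_neg]; congr 1; ring
  have b3 : theta (-x 0 + x 1 + -x 2) = theta (x 0 - x 1 + x 2) := by
    rw [← theta_neg]; congr 1; ring
  have b4 : theta (-x 0 + x 1 + x 2) = theta (x 0 - x 1 - x 2) := by
    rw [← theta_neg]; congr 1; ring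
  simp only [a1, a2, a3, a4, a5, a6, b1, b2, b3, b4]
  simp only [← sub_eq_add_neg]
  ring

lemma cone (a b c : ℝ) (h : a ≠ 0 ∨ b ≠ 0 ∨ c ≠ 0) :
    0 < 7 / 5 * (|a + b| + |a - b| + |a + c| + |a - c| + |b + c| + |b - c|)
      - 1 / 2 * (|a + b + c| + |a + b - c| + |a - b + c| + |a - b - c|)
      - 8 / 5 * (|a| + |b| + |c|) := by
  have hp : 0 < |a| + |b| + |c| := by
    have := abs_nonneg a
    have := abs_nonneg b
    have := abs_nonneg c
    rcases h with h | h | h <;> have := abs_pos.mpr h <;> linarith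
  have p1 := le_abs_self (a + b)
  have p2 := neg_le_abs (a + b)
  have p3 := le_abs_self (a - b)
  have p4 := neg_le_abs (a - b)
  have p5 := le_abs_self (a + c)
  have p6 := neg_le_abs (a + c)
  have p7 := le_abs_self (a - c)
  have p8 := neg_le_abs (a - c)
  have p9 := le_abs_self (b + c)
  have p10 := neg_le_abs (b + c)
  have p11 := le_abs_self (b - c)
  have p12 := neg_le_abs (b - c)
  rcases abs_cases a with ⟨ha, -⟩ | ⟨ha, -⟩ <;> rcases abs_cases b with ⟨hb, -⟩ | ⟨hb, -⟩ <;>
    rcases abs_cases c with ⟨hc, -⟩ | ⟨hc, -⟩ <;>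
    rcases abs_cases (a + b + c) with ⟨h1, -⟩ | ⟨h1, -⟩ <;>
    rcases abs_cases (a + b - c) with ⟨h2, -⟩ | ⟨h2, -⟩ <;>
    rcases abs_cases (a - b + c) with ⟨h3, -⟩ | ⟨h3, -⟩ <;>
    rcases abs_cases (a - b - c) with ⟨h4, -⟩ | ⟨h4, -⟩ <;> linarith

lemma local_pos (x : Fin 3 → ℝ) (hx : x ≠ 0) (hn : ‖x‖ < 1 / 3) : 0 < rains D x := by
  have h0 : |x 0| < 1 / 3 := lt_of_le_of_lt (norm_le_pi_norm x 0) hn
  have h1 : |x 1| < 1 / 3 := lt_of_le_of_lt (norm_le_pi_norm x 1) hn
  have h2 : |x 2| < 1 / 3 := lt_of_le_of_lt (norm_le_pi_norm x 2) hn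
  have hne : x 0 ≠ 0 ∨ x 1 ≠ 0 ∨ x 2 ≠ 0 := by
    by_contra hc
    push Not at hc
    apply hx
    funext l
    fin_cases l
    · exact hc.1
    · exact hc.2.1
    · exact hc.2.2
  rw [abs_lt] at h0 h1 h2
  rw [rains_eq]
  rw [theta_small (x 0 + x 1), theta_small (x 0 - x 1), theta_small (x 0 + x 2),
    theta_small (x 0 - x 2), theta_small (x 1 + x 2), theta_small (x 1 - x 2),
    theta_small (x 0 + x 1 + x 2), theta_small (x 0 + x 1 - x 2), theta_small (x 0 - x 1 + x 2),
    theta_small (x 0 - x 1 - x 2), theta_small (x 0), theta_small (x 1), theta_small (x 2),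
    theta_small (2 * x 0), theta_small (2 * x 1), theta_small (2 * x 2)]
  · have := cone (x 0) (x 1) (x 2) hne
    simp only [abs_mul, abs_two]
    nlinarith
  all_goals
    rw [abs_lt]
    constructor <;> linarith

lemma neg_at : rains D ![1 / 2, 1 / 2, 1 / 2] < 0 := by
  rw [rains_eq]
  have h1 : theta 1 = 0 := by simp [theta]
  have h2 : theta (1 / 2) = 1 / 4 := by rw [theta_small _ (by norm_num)]; norm_num
  have h3 : theta (3 / 2) = 1 / 4 := by
    have : (3 / 2 : ℝ) = 1 / 2 + 1 := by norm_num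
    rw [← h2, this]
    unfold theta
    rw [Int.fract_add_one]
  have h4 : theta (-(1 / 2)) = 1 / 4 := by rw [theta_neg, h2]
  simp only [Matrix.cons_val_zero, Matrix.cons_val_one, Matrix.cons_val_two, Matrix.head_cons,
    Matrix.tail_cons]
  norm_num [h1, h2, h3, h4, theta_zero]

end Pool.Agent.H496Z.Rains
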