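import Pool.Agent.H496Z.RainsDefs

/-!
Exterior powers of the defining representation of USp(6) as multiplets, with their weights.
-/

open Matrix Module Set

namespace Pool.Agent.H496Z.Rains

lemma e_add (s t : ℝ) : e (s + t) = e s * e t := by
  unfold e
  rw [← Complex.exp_add]
  push_cast
  ring_nf

lemma e_zero : e 0 = 1 := by simp [e]

lemma e_sum {ι : Type} (s : Finset ι) (f : ι → ℝ) : e (∑ i ∈ s, f i) = ∏ i ∈ s, e (f i) := by
  classical
  induction s using Finset.induction_on with
  | empty => simp [e_zero]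
  | insert a s ha ih => rw [Finset.sum_insert ha, Finset.prod_insert ha, e_add, ih]

/-- integer weights of the defining representation, indexed by `Fin 6` -/
def wZ : Fin 6 → Fin 3 → ℤ :=
  ![![1, 0, 0], ![0, 1, 0], ![0, 0, 1], ![-1, 0, 0], ![0, -1, 0], ![0, 0, -1]]

/-- cast of an integer vector -/
def castv (v : Fin 3 → ℤ) : Fin 3 → ℝ := fun l => (v l : ℝ)

/-- the standard basis of `ℂ^6` indexed by `Fin 6` -/
noncomputable def bas : Basis (Fin 6) ℂ (Fin 3 ⊕ Fin 3 → ℂ) :=
  (Pi.basisFun ℂ (Fin 3 ⊕ Fin 3)).reindex finSumFinEquiv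

lemma torus_bas (x : Fin 3 → ℝ) (i : Fin 6) :
    Matrix.toLin' (torus x).1 (bas i) = e (castv (wZ i) ⬝ᵥ x) • bas i := by
  have h : e (castv (wZ i) ⬝ᵥ x) =
      Sum.elim (fun i => e (x i)) (fun i => e (-x i)) (finSumFinEquiv.symm i : Fin 3 ⊕ Fin 3) := by
    fin_cases i
    · have : (finSumFinEquiv.symm (0 : Fin (3 + 3)) : Fin 3 ⊕ Fin 3) = Sum.inl 0 := by decide
      simp [this, castv, wZ, dotProduct, Fin.sum_univ_three]
    · have : (finSumFinEquiv.symm (1 : Fin (3 + 3)) : Fin 3 ⊕ Fin 3) = Sum.inl 1 := by decide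
      simp [this, castv, wZ, dotProduct, Fin.sum_univ_three]
    · have : (finSumFinEquiv.symm (2 : Fin (3 + 3)) : Fin 3 ⊕ Fin 3) = Sum.inl 2 := by decide
      simp [this, castv, wZ, dotProduct, Fin.sum_univ_three]
    · have : (finSumFinEquiv.symm (3 : Fin (3 + 3)) : Fin 3 ⊕ Fin 3) = Sum.inr 0 := by decide
      simp [this, castv, wZ, dotProduct, Fin.sum_univ_three]
    · have : (finSumFinEquiv.symm (4 : Fin (3 + 3)) : Fin 3 ⊕ Fin 3) = Sum.inr 1 := by decide
      simp [this, castv, wZ, dotProduct, Fin.sum_univ_three]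
    · have : (finSumFinEquiv.symm (5 : Fin (3 + 3)) : Fin 3 ⊕ Fin 3) = Sum.inr 2 := by decide
      simp [this, castv, wZ, dotProduct, Fin.sum_univ_three]
  rw [h]
  ext j
  simp only [bas, torus, Basis.reindex_apply, Pi.basisFun_apply, Matrix.toLin'_apply,
    Matrix.mulVec_diagonal, Pi.smul_apply, smul_eq_mul]
  by_cases hj : j = finSumFinEquiv.symm i
  · subst hj; rfl
  · simp [hj]

/-- the basis of the `k`-th exterior power, indexed by `Fin d` -/
noncomputable def extBas (k d : ℕ) (q : powersetCard (Fin 6) k ≃ Fin d) :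
    Basis (Fin d) ℂ (⋀[ℂ]^k (Fin 3 ⊕ Fin 3 → ℂ)) :=
  (bas.exteriorPower k).reindex q

/-- the `k`-th exterior power of the defining representation, as matrices -/
noncomputable def extRep (k d : ℕ) (q : powersetCard (Fin 6) k ≃ Fin d) :
    USp6 →* Matrix (Fin d) (Fin d) ℂ where
  toFun g := LinearMap.toMatrix (extBas k d q) (extBas k d q)
    (exteriorPower.map k (Matrix.toLin' g.1))
  map_one' := by
    simp [exteriorPower.map_id]
  map_mul' g h := by
    simp only [Submonoid.coe_mul, Matrix.toLin'_mul, exteriorPower.map_comp]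
    rw [LinearMap.toMatrix_comp (extBas k d q) (extBas k d q) (extBas k d q)]

lemma extRep_cont (k d : ℕ) (q : powersetCard (Fin 6) k ≃ Fin d) : Continuous (extRep k d q) := by
  refine continuous_matrix fun s t => ?_
  have : (fun g : USp6 => extRep k d q g s t) = fun g : USp6 =>
      (Matrix.of fun i j => bas.coord (powersetCard.ofFinEmbEquiv.symm (q.symm s) j)
        (Matrix.toLin' g.1 (bas (powersetCard.ofFinEmbEquiv.symm (q.symm t) i)))).det := by
    funext g
    simp only [extRep, MonoidHom.coe_mk, OneHom.coe_mk, LinearMap.toMatrix_apply, extBas,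
      Basis.reindex_apply, Basis.repr_reindex_apply, exteriorPower.basis_apply,
      exteriorPower.basis_repr_apply, exteriorPower.ιMulti_family,
      exteriorPower.map_apply_ιMulti, exteriorPower.ιMultiDual_apply_ιMulti]
    rfl
  rw [this]
  refine Continuous.matrix_det (continuous_matrix fun i j => ?_)
  simp only [Matrix.of_apply, bas, Basis.reindex_apply, Basis.coord_apply,
    Basis.repr_reindex_apply, Pi.basisFun_repr, Pi.basisFun_apply, Matrix.toLin'_apply,
    Matrix.mulVec_single_one, Matrix.col_apply]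
  exact (continuous_apply_apply _ _).comp continuous_subtype_val

/-- weights of the exterior power -/
noncomputable def extWt (k d : ℕ) (q : powersetCard (Fin 6) k ≃ Fin d) (s : Fin d) :
    Fin 3 → ℝ := castv (∑ i ∈ (q.symm s).1, wZ i)

lemma castv_sum_dot (s : Finset (Fin 6)) (x : Fin 3 → ℝ) :
    castv (∑ i ∈ s, wZ i) ⬝ᵥ x = ∑ i ∈ s, castv (wZ i) ⬝ᵥ x := by
  simp only [castv, dotProduct, Finset.sum_apply, Int.cast_sum, Finset.sum_mul]
  rw [Finset.sum_comm]

lemma extRep_torus (k d : ℕ) (q : powersetCard (Fin 6) k ≃ Fin d) (x : Fin 3 → ℝ) :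
    extRep k d q (torus x) = Matrix.diagonal fun s => e (extWt k d q s ⬝ᵥ x) := by
  have key : ∀ t : Fin d, exteriorPower.map k (Matrix.toLin' (torus x).1) (extBas k d q t)
      = e (extWt k d q t ⬝ᵥ x) • extBas k d q t := by
    intro t
    simp only [extBas, Basis.reindex_apply, exteriorPower.basis_apply,
      exteriorPower.ιMulti_family, exteriorPower.map_apply_ιMulti]
    have h1 : (⇑(Matrix.toLin' (torus x).1) ∘ ⇑bas ∘ ⇑(powersetCard.ofFinEmbEquiv.symm (q.symm t)))
        = fun i => e (castv (wZ (powersetCard.ofFinEmbEquiv.symm (q.symm t) i)) ⬝ᵥ x) •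
          (⇑bas ∘ ⇑(powersetCard.ofFinEmbEquiv.symm (q.symm t))) i := by
      funext i
      simp only [Function.comp_apply, torus_bas]
    rw [h1, AlternatingMap.map_smul_univ]
    congr 1
    rw [extWt, castv_sum_dot, e_sum]
    symm
    refine Finset.prod_bij' (fun i hi => ((q.symm t).1.orderIsoOfFin (q.symm t).2).symm ⟨i, hi⟩)
      (fun j _ => ((q.symm t).1.orderIsoOfFin (q.symm t).2 j : Fin 6)) ?_ ?_ ?_ ?_ ?_
    · intro i hi; simp
    · intro j _; simp
    · intro i hi; simp
    · intro j _
      exact ((q.symm t).1.orderIsoOfFin (q.symm t).2).symm_apply_apply j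
    · intro i hi
      have h5 : (powersetCard.ofFinEmbEquiv.symm (q.symm t))
          (((q.symm t).1.orderIsoOfFin (q.symm t).2).symm ⟨i, hi⟩) = i := by
        have := congrArg Subtype.val
          (((q.symm t).1.orderIsoOfFin (q.symm t).2).apply_symm_apply ⟨i, hi⟩)
        exact this
      rw [h5]
  ext s t
  simp only [extRep, MonoidHom.coe_mk, OneHom.coe_mk, LinearMap.toMatrix_apply, key, map_smul,
    Basis.repr_self, Finsupp.smul_apply, smul_eq_mul, Matrix.diagonal_apply, Finsupp.single_apply]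
  by_cases h : s = t
  · subst h; simp
  · simp [h, Ne.symm h]

/-- the multiplet given by the `k`-th exterior power with R-charge `r` -/
noncomputable def extM (k : ℕ) (r : ℝ) (h0 : 0 < r) (h2 : r < 2) : Multiplet where
  dim := Fintype.card (powersetCard (Fin 6) k)
  rep := extRep k _ (Fintype.equivFin _)
  cont := extRep_cont _ _ _
  wt := extWt k _ (Fintype.equivFin _)
  rep_torus := extRep_torus _ _ _
  r := r
  r_pos := h0
  r_lt := h2

lemma extM_weights (k : ℕ) (r : ℝ) (h0 : 0 < r) (h2 : r < 2) :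
    (extM k r h0 h2).weights
      = ((Finset.powersetCard k (Finset.univ : Finset (Fin 6))).val.map
          fun s => ∑ i ∈ s, wZ i).map castv := by
  unfold Multiplet.weights
  have h1 : (Finset.univ.val.map (extM k r h0 h2).wt)
      = (Finset.univ : Finset (powersetCard (Fin 6) k)).val.map
        (fun s => castv (∑ i ∈ s.1, wZ i)) := by
    show ((Finset.univ : Finset (Fin (Fintype.card (powersetCard (Fin 6) k)))).val.map
      (extWt k _ (Fintype.equivFin _))) = _
    rw [← Finset.map_univ_equiv (Fintype.equivFin (powersetCard (Fin 6) k)), Finset.map_val,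
      Multiset.map_map]
    congr 1
    funext s
    simp [extWt]
  rw [h1, Multiset.map_map]
  have h3 : (Finset.powersetCard k (Finset.univ : Finset (Fin 6))).val
      = (Finset.univ : Finset (powersetCard (Fin 6) k)).val.map Subtype.val := by
    have : Finset.powersetCard k (Finset.univ : Finset (Fin 6))
        = (Finset.univ : Finset (powersetCard (Fin 6) k)).map (Function.Embedding.subtype _) := by
      ext s
      simp only [Finset.mem_powersetCard, Finset.subset_univ, true_and, Finset.mem_map,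
        Finset.mem_univ, Function.Embedding.coe_subtype, Subtype.exists, exists_prop,
        exists_eq_right]
      rfl
    rw [this, Finset.map_val]
    rfl
  rw [h3, Multiset.map_map]
  rfl

lemma w1 : ((Finset.powersetCard 1 (Finset.univ : Finset (Fin 6))).val.map
      fun s => ∑ i ∈ s, wZ i)
    = {![1, 0, 0], ![0, 1, 0], ![0, 0, 1], ![-1, 0, 0], ![0, -1, 0], ![0, 0, -1]} := by
  decide

lemma w2 : ((Finset.powersetCard 2 (Finset.univ : Finset (Fin 6))).val.map
      fun s => ∑ i ∈ s, wZ i)
    = {![1, 1, 0], ![1, -1, 0], ![1, 0, 1], ![1, 0, -1], ![0, 1, 1], ![0, 1, -1],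
       ![-1, -1, 0], ![-1, 1, 0], ![-1, 0, -1], ![-1, 0, 1], ![0, -1, -1], ![0, -1, 1],
       ![0, 0, 0], ![0, 0, 0], ![0, 0, 0]} := by
  decide

lemma w3 : ((Finset.powersetCard 3 (Finset.univ : Finset (Fin 6))).val.map
      fun s => ∑ i ∈ s, wZ i)
    = {![1, 1, 1], ![1, 1, -1], ![1, -1, 1], ![1, -1, -1],
       ![-1, -1, -1], ![-1, -1, 1], ![-1, 1, -1], ![-1, 1, 1],
       ![1, 0, 0], ![0, 1, 0], ![0, 0, 1], ![-1, 0, 0], ![0, -1, 0], ![0, 0, -1],
       ![1, 0, 0], ![0, 1, 0], ![0, 0, 1], ![-1, 0, 0], ![0, -1, 0], ![0, 0, -1]} := by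
  decide

end Pool.Agent.H496Z.Rains
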