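import Pool.Agent.H496Z.RainsDefs

/-!
The trace anomaly `Tr R` of a USp(6) gauge theory.
-/

namespace Pool.Agent.H496Z.Rains

/-- `Tr R = dim G + ∑_j (r_j - 1) dim R_j`, where `dim G = dim USp(6) = 21`. -/
noncomputable def trR {n : ℕ} (D : Fin n → Multiplet) : ℝ :=
  21 + ∑ j, ((D j).r - 1) * ((D j).dim : ℝ)

end Pool.Agent.H496Z.Rains
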