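import Pool.Agent.H496Z.RainsMain
import Pool.Agent.H496Z.RainsTrDefs

/-!
Two copies of the third exterior power with R-charge 1/5 and two copies of the defining
representation with R-charge 9/5: negative `Tr R` and a Rains function with a negative value.
-/

open Matrix

namespace Pool.Agent.H496Z.Rains

/-- the matter content -/
noncomputable def D2 : Fin 4 → Multiplet :=
  ![extM 3 (1 / 5) (by norm_num) (by norm_num), extM 3 (1 / 5) (by norm_num) (by norm_num),
    extM 1 (9 / 5) (by norm_num) (by norm_num), extM 1 (9 / 5) (by norm_num) (by norm_num)]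

lemma sumD2 (F : Multiplet → ℝ) : ∑ j, F (D2 j) =
    2 * F (extM 3 (1 / 5) (by norm_num) (by norm_num))
      + 2 * F (extM 1 (9 / 5) (by norm_num) (by norm_num)) := by
  simp only [D2, Fin.sum_univ_succ, Fin.sum_univ_zero, Matrix.cons_val_zero, Matrix.cons_val_succ]
  ring

lemma quad2 : QuadAnomaly D2 := by
  intro l m
  rw [sumD2 (fun M => (M.r - 1) * (M.weights.map fun ρ => ρ l * ρ m).sum)]
  simp only [extM_r, extM_weights, w1, w3, roots, posRoots, Multiset.insert_eq_cons,
    Multiset.map_cons, Multiset.map_singleton, Multiset.sum_cons, Multiset.sum_singleton,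
    Multiset.map_add, Multiset.sum_add, castv3]
  fin_cases l <;> fin_cases m <;> simp <;> norm_num

lemma cubic2 : CubicAnomaly D2 := by
  intro l m k
  rw [sumD2 (fun M => (M.weights.map fun ρ => ρ l * ρ m * ρ k).sum)]
  simp only [extM_weights, w1, w3, Multiset.insert_eq_cons,
    Multiset.map_cons, Multiset.map_singleton, Multiset.sum_cons, Multiset.sum_singleton, castv3]
  fin_cases l <;> fin_cases m <;> fin_cases k <;> simp

lemma af2 : AsymptoticallyFree D2 := by
  intro l
  rw [sumD2 (fun M => (M.weights.map fun ρ => ρ l ^ 2).sum)]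
  simp only [extM_weights, w1, w3, roots, posRoots, Multiset.insert_eq_cons,
    Multiset.map_cons, Multiset.map_singleton, Multiset.sum_cons, Multiset.sum_singleton,
    Multiset.map_add, Multiset.sum_add, castv3]
  fin_cases l <;> simp <;> norm_num

lemma nonchiral2 : NonChiral D2 := by
  unfold NonChiral
  have h1 := neg_weights 1 (9 / 5) (by norm_num) (by norm_num) (by rw [w1]; decide)
  have h3 := neg_weights 3 (1 / 5) (by norm_num) (by norm_num) (by rw [w3]; decide)
  simp only [D2, Fin.sum_univ_succ, Fin.sum_univ_zero, Matrix.cons_val_zero, Matrix.cons_val_succ,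
    Multiset.map_add, h1, h3, add_zero]

lemma good_weights (k : ℕ) (r : ℝ) (h0 : 0 < r) (h2 : r < 2)
    (h : ∀ v ∈ ((Finset.powersetCard k (Finset.univ : Finset (Fin 6))).val.map
          fun s => ∑ i ∈ s, wZ i), v ≠ 0) :
    ∀ ρ ∈ (extM k r h0 h2).weights, ρ ≠ 0 ∧ ∀ l, ∃ m : ℤ, ρ l = m := by
  intro ρ hρ
  rw [extM_weights, Multiset.mem_map] at hρ
  obtain ⟨v, hv, rfl⟩ := hρ
  refine ⟨fun hz => h v hv ?_, fun l => ⟨v l, rfl⟩⟩
  funext l
  have := congrFun hz l
  simpa [castv] using this

lemma weights2 : ∀ j, ∀ ρ ∈ (D2 j).weights, ρ ≠ 0 ∧ ∀ l, ∃ m : ℤ, ρ l = m := by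
  have h1 := good_weights 1 (9 / 5) (by norm_num) (by norm_num) (by rw [w1]; decide)
  have h3 := good_weights 3 (1 / 5) (by norm_num) (by norm_num) (by rw [w3]; decide)
  intro j
  fin_cases j
  · exact h3
  · exact h3
  · exact h1
  · exact h1

lemma extM_dim (k : ℕ) (r : ℝ) (h0 : 0 < r) (h2 : r < 2) :
    (extM k r h0 h2).dim = (extM k r h0 h2).weights.card := by
  simp [Multiplet.weights]

lemma trR2 : trR D2 < 0 := by
  unfold trR
  rw [sumD2 (fun M => (M.r - 1) * (M.dim : ℝ))]
  simp only [extM_r, extM_dim, extM_weights, w1, w3, Multiset.card_map, Multiset.insert_eq_cons,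
    Multiset.card_cons, Multiset.card_singleton]
  norm_num

lemma neg_at2 : rains D2 ![1 / 2, 1 / 2, 0] < 0 := by
  have h1 : theta 1 = 0 := by simp [theta]
  have h2 : theta (1 / 2) = 1 / 4 := by rw [theta_small _ (by norm_num)]; norm_num
  unfold rains
  rw [sumD2 (fun M => (1 - M.r) * (M.weights.map fun ρ => theta (ρ ⬝ᵥ ![1 / 2, 1 / 2, 0])).sum)]
  simp only [extM_r, extM_weights, w1, w3, posRoots, Multiset.insert_eq_cons,
    Multiset.map_cons, Multiset.map_singleton, Multiset.sum_cons, Multiset.sum_singleton,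
    castv3, dotProduct, Fin.sum_univ_three, Matrix.cons_val_zero, Matrix.cons_val_one,
    Matrix.cons_val_two, Matrix.head_cons, Matrix.tail_cons, Int.cast_one, Int.cast_zero,
    Int.cast_neg]
  norm_num [h1, h2, theta_zero, theta_neg]

end Pool.Agent.H496Z.Rains
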